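import Pool.Agent.P8H99.GO.Stm

/-! Project OD, package GRP (helper44): grouping the surjective maps by the sizes of the fibres -/

set_option autoImplicit false

namespace Pool.Agent.P8H44.OD

open Finset
open Pool.Agent.P8H99.GO

/-- the sizes of the fibres -/
def fs {n k : ℕ} (g : Fin n → Fin k) : Fin k → ℕ := fun i => ((univ : Finset (Fin n)).filter (fun p => g p = i)).card

theorem grp : S_FIB → S_PTH → S_GRP := by
  intro hF hP k n B hB hs
  classical
  set G := (univ : Finset (Fin n → Fin k)).filter Function.Surjective with hG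
  set P := Fintype.piFinset (fun _ : Fin k => range (n + 1)) with hPi
  have hmaps : ∀ g ∈ G, fs g ∈ P := by
    intro g _
    rw [hPi, Fintype.mem_piFinset]
    intro i
    rw [mem_range, Nat.lt_succ_iff]
    refine (card_le_univ _).trans ?_
    rw [Fintype.card_fin]
  have h1 : (∑ g ∈ G, 2 ^ wt g) = ∑ s ∈ P, ∑ g ∈ G.filter (fun g => fs g = s), 2 ^ wt g :=
    (sum_fiberwise_of_maps_to hmaps _).symm
  have hcard : (P.card : ℝ) = ((n : ℝ) + 1) ^ k := by
    rw [hPi, Fintype.card_piFinset]
    simp
  have h2 : ∀ s ∈ P, ((∑ g ∈ G.filter (fun g => fs g = s), 2 ^ wt g : ℕ) : ℝ) ≤ B := by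
    intro s _
    by_cases hne : (G.filter (fun g => fs g = s)).Nonempty
    · obtain ⟨g, hg⟩ := hne
      obtain ⟨hgG, hgs⟩ := mem_filter.mp hg
      have hsur : Function.Surjective g := (mem_filter.mp hgG).2
      have h3 : ∀ g' ∈ G.filter (fun g => fs g = s), 2 ^ wt g' = 2 ^ path (List.ofFn s) := by
        intro g' hg'
        have h4 : fs g' = s := (mem_filter.mp hg').2
        rw [hP k n g', ← h4]
        rfl
      rw [sum_congr rfl h3, sum_const, smul_eq_mul]
      have h4 : (G.filter (fun g => fs g = s)).card ≤ mult (List.ofFn s) := by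
        refine le_trans (card_le_card ?_) (hF k (Fin n) s)
        intro g' hg'
        rw [mem_filter]
        exact ⟨mem_univ _, fun i => congrFun (mem_filter.mp hg').2 i⟩
      have h5 : ∀ x ∈ List.ofFn s, 1 ≤ x := by
        intro x hx
        rw [List.mem_ofFn] at hx
        obtain ⟨i, rfl⟩ := hx
        rw [← hgs]
        obtain ⟨p, hp⟩ := hsur i
        exact card_pos.mpr ⟨p, mem_filter.mpr ⟨mem_univ _, hp⟩⟩
      have h6 : (List.ofFn s).sum = n := by
        rw [List.sum_ofFn, ← hgs]
        have h7 := card_eq_sum_card_fiberwise (f := g) (s := (univ : Finset (Fin n)))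
          (t := (univ : Finset (Fin k))) (fun _ _ => mem_coe.mpr (mem_univ _))
        rw [card_univ, Fintype.card_fin] at h7
        exact h7.symm
      refine le_trans ?_ (hs (List.ofFn s) (List.length_ofFn) h5 h6)
      push_cast
      exact mul_le_mul_of_nonneg_right (by exact_mod_cast h4) (by positivity)
    · rw [not_nonempty_iff_eq_empty] at hne
      rw [hne, sum_empty, Nat.cast_zero]
      exact hB
  rw [h1, Nat.cast_sum, ← hcard]
  calc ∑ s ∈ P, ((∑ g ∈ G.filter (fun g => fs g = s), 2 ^ wt g : ℕ) : ℝ) ≤ ∑ _s ∈ P, B :=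
        sum_le_sum h2
    _ = P.card * B := by rw [sum_const, nsmul_eq_mul]

end Pool.Agent.P8H44.OD
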